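import Pool.Agent.Helper7.KT.St
import Pool.Agent.Helper89.EX.ST

set_option autoImplicit false

/-!
# Project KT (MP_5176ab_co): module CRK, the crosscut number of `K_{s,t}`
-/

namespace Pool.Agent.Helper58.KT

open Finset SimpleGraph Filter Topology
open EX Pool.Agent.Helper7.KT

open scoped Classical

noncomputable section

/-- a family of vertices in `I` or of edges in `T` -/
theorem card_bound {U : Type} {s : ℕ} (I : Finset U) (T : Finset (Sym2 U)) (f : Fin s → U) (c : U)
    (hf : Function.Injective f) (hT : ∀ i, f i ∉ I → s(c, f i) ∈ T) : s ≤ I.card + T.card := by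
  have h1 : (univ : Finset (Fin s)).image (fun i : Fin s =>
      (if f i ∈ I then Sum.inl (f i) else Sum.inr s(c, f i) : U ⊕ Sym2 U)) ⊆ I.disjSum T := by
    intro z hz
    obtain ⟨i, -, rfl⟩ := mem_image.1 hz
    split_ifs with h
    · exact Finset.inl_mem_disjSum.2 h
    · exact Finset.inr_mem_disjSum.2 (hT i h)
  have h2 := card_le_card h1
  rw [Finset.card_disjSum, card_image_of_injective, card_univ, Fintype.card_fin] at h2
  · exact h2
  · intro i j hij
    simp only at hij
    split_ifs at hij with h h' h'
    · exact hf (Sum.inl_injective hij)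
    · rw [Sum.inr.injEq, Sym2.congr_right] at hij
      exact hf hij

theorem hCRK : StCRK := by
  intro r s t hr hs hst
  have ht : 0 < t := lt_of_lt_of_le hs hst
  refine le_antisymm ?_ ?_
  · have hind : ∀ u ∈ (univ.image fun v : Fin s => (Sum.inl v : Fin s ⊕ Fin t)),
        ∀ v ∈ (univ.image fun v : Fin s => (Sum.inl v : Fin s ⊕ Fin t)),
        ¬ (completeBipartiteGraph (Fin s) (Fin t)).Adj u v := by
      intro u hu v hv
      obtain ⟨x, -, rfl⟩ := mem_image.1 hu
      obtain ⟨y, -, rfl⟩ := mem_image.1 hv
      simp [completeBipartiteGraph]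
    refine (crosscut_le_cost r hr _ _ hind).trans ?_
    refine (cost_le_of _ _ ∅ ?_).trans ?_
    · intro u v huv hu hv
      exfalso
      rcases u with x | x
      · exact hu (mem_image.2 ⟨x, mem_univ _, rfl⟩)
      · rcases v with y | y
        · exact hv (mem_image.2 ⟨y, mem_univ _, rfl⟩)
        · simp [completeBipartiteGraph] at huv
    · rw [Finset.card_empty, add_zero]
      refine card_image_le.trans ?_
      rw [card_univ, Fintype.card_fin]
  · obtain ⟨I, hI, hc⟩ := exists_opt r hr (completeBipartiteGraph (Fin s) (Fin t))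
    rw [← hc]
    obtain ⟨T, hT, hT2⟩ := cost_ge (completeBipartiteGraph (Fin s) (Fin t)) I
    rw [hT]
    by_cases hex : ∃ j : Fin t, (Sum.inr j : Fin s ⊕ Fin t) ∈ I
    · obtain ⟨j, hj⟩ := hex
      have hno : ∀ i : Fin s, (Sum.inl i : Fin s ⊕ Fin t) ∉ I := by
        intro i hi
        exact hI _ hi _ hj (by simp [completeBipartiteGraph])
      refine card_bound I T (fun i : Fin s => (Sum.inr (Fin.castLE hst i) : Fin s ⊕ Fin t))
        (Sum.inl ⟨0, hs⟩) ?_ ?_
      · intro a b hab
        exact Fin.castLE_injective hst (Sum.inr_injective hab)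
      · intro i hi
        exact hT2 _ _ (by simp [completeBipartiteGraph]) (hno _) hi
    · have hno : ∀ j : Fin t, (Sum.inr j : Fin s ⊕ Fin t) ∉ I := fun j hj => hex ⟨j, hj⟩
      refine card_bound I T (fun i : Fin s => (Sum.inl i : Fin s ⊕ Fin t))
        (Sum.inr ⟨0, ht⟩) Sum.inl_injective ?_
      intro i hi
      exact hT2 _ _ (by simp [completeBipartiteGraph]) (hno _) hi

end

end Pool.Agent.Helper58.KT
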